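import Pool.Agent.U104.AT.Main

set_option autoImplicit false

/-!
# The free alternative algebra is not a free module: an element of additive order three in degree six

For `x 0, …, x 5` in an alternative ring let `a ∘ b = a b + b a` and let `T` be the sum of five
associators

`(x0∘x1, x2∘x3, x4∘x5) + (x0∘x2, x1∘x4, x3∘x5) + (x0∘x3, x1∘x5, x2∘x4) + (x0∘x4, x2∘x5, x1∘x3) +
(x0∘x5, x3∘x4, x1∘x2)`,

one for each of the five perfect matchings in a one-factorisation of the complete graph on six vertices.
Then `3 T = 0`: by Artin's theorem `(x², x∘y, y²) = 0`, and `3 T` is an integral combination of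
complete linearisations of this identity. For six different free generators of the free alternative
`Φ`-algebra the element `T` is zero only if `3` is invertible in `Φ`: there is a commutative algebra of
rank 49 over the integers, with `(a b) c + (b c) a + (c a) b = 0`, which is alternative modulo three,
and in which `T` takes the value `8 v` for a basis element `v`.

So the additive group of the free alternative ring on at least six generators has elements of order
three, and `Alt_Φ[X]` is not a free (not even a flat) `Φ`-module if `3` is neither invertible nor a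
zero divisor in `Φ`.

`FreeAlt Φ X` is defined in `Pool/Agent/Helper805/Nuc/Free.lean`: the quotient of the free
non-associative algebra (`FreeNonUnitalNonAssocAlgebra`) by the smallest two-sided ideal that contains
all `(a a) b - a (a b)` and `(b a) a - b (a a)`; `FreeAlt.gen` are its generators.
-/

namespace Pool.Agent.Results.MP_2692c1_al.ThreeTorsion

open Pool.Agent.Helper805.Nuc.Free

/-- The associator `(a, b, c)`. -/
def assoc {A : Type} [NonUnitalNonAssocRing A] (a b c : A) : A := (a * b) * c - a * (b * c)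

/-- The Jordan product `a b + b a`. -/
def jordan {A : Type} [NonUnitalNonAssocRing A] (a b : A) : A := a * b + b * a

/-- The element `T`. -/
def elt {A : Type} [NonUnitalNonAssocRing A] (x : Fin 6 → A) : A :=
  assoc (jordan (x 0) (x 1)) (jordan (x 2) (x 3)) (jordan (x 4) (x 5)) +
  assoc (jordan (x 0) (x 2)) (jordan (x 1) (x 4)) (jordan (x 3) (x 5)) +
  assoc (jordan (x 0) (x 3)) (jordan (x 1) (x 5)) (jordan (x 2) (x 4)) +
  assoc (jordan (x 0) (x 4)) (jordan (x 2) (x 5)) (jordan (x 1) (x 3)) +
  assoc (jordan (x 0) (x 5)) (jordan (x 3) (x 4)) (jordan (x 1) (x 2))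

/-- (1) For all `Φ`, `X` and all elements `y` of `Alt_Φ[X]`, `3 T(y) = 0`; for six different generators
`T = 0` if and only if `3` is invertible in `Φ`. (2) If `X` contains disjoint sets of six generators
indexed by `I`, the only relations with coefficients in `Φ` between their elements `T` are the
trivial ones, all coefficients divisible by `3`. (3) If `X` has at least six elements and `3` is neither
invertible nor a zero divisor in `Φ` then `Alt_Φ[X]` is not flat and not free over `Φ`. (4) The case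
`Φ = ℤ` of the question: the free alternative ring on a countably infinite set has a nonzero element
`f` with `3 f = 0`, and it is not a free `ℤ`-module. -/
theorem result :
    (∀ (Φ : Type) [CommRing Φ] (X : Type),
      (∀ y : Fin 6 → FreeAlt Φ X, (3 : Φ) • elt y = 0) ∧
      ∀ x : Fin 6 ↪ X, elt (fun i => (FreeAlt.gen (x i) : FreeAlt Φ X)) = 0 ↔ IsUnit (3 : Φ)) ∧
    (∀ (Φ : Type) [CommRing Φ] (X I : Type) (x : I × Fin 6 ↪ X) (c : I →₀ Φ),
      (c.sum fun i a => a • elt (fun j => (FreeAlt.gen (x (i, j)) : FreeAlt Φ X))) = 0 ↔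
        ∀ i, (3 : Φ) ∣ c i) ∧
    (∀ (Φ : Type) [CommRing Φ] (X : Type), Nonempty (Fin 6 ↪ X) → ¬ IsUnit (3 : Φ) →
      (3 : Φ) ∈ nonZeroDivisors Φ →
        ¬ Module.Flat Φ (FreeAlt Φ X) ∧ ¬ Module.Free Φ (FreeAlt Φ X)) ∧
    ((∃ f : FreeAlt ℤ ℕ, f ≠ 0 ∧ (3 : ℤ) • f = 0) ∧ ¬ Module.Free ℤ (FreeAlt ℤ ℕ)) := by
  have h1 : ∀ (Φ : Type) [CommRing Φ] (X : Type), (∀ y : Fin 6 → FreeAlt Φ X, (3 : Φ) • elt y = 0) ∧
      ∀ x : Fin 6 ↪ X, elt (fun i => (FreeAlt.gen (x i) : FreeAlt Φ X)) = 0 ↔ IsUnit (3 : Φ) :=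
    fun Φ _ X => ⟨fun y => U104.AT.three_smul y, fun x => U104.AT.tor_eq_zero_iff x⟩
  have h3 : ∀ (Φ : Type) [CommRing Φ] (X : Type), Nonempty (Fin 6 ↪ X) → ¬ IsUnit (3 : Φ) →
      (3 : Φ) ∈ nonZeroDivisors Φ →
        ¬ Module.Flat Φ (FreeAlt Φ X) ∧ ¬ Module.Free Φ (FreeAlt Φ X) := by
    rintro Φ _ X ⟨x⟩ hu hz
    have hf := U104.AT.not_free x hu hz
    exact ⟨hf, fun hfree => hf inferInstance⟩
  have hu : ¬ IsUnit (3 : ℤ) := by
    rw [Int.isUnit_iff]
    omega
  have x6 : Fin 6 ↪ ℕ := ⟨fun i => i.val, fun a b h => Fin.ext h⟩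
  refine ⟨h1, fun Φ _ X I x c => U104.AT.relations x.injective c, h3, ⟨_, ?_, (h1 ℤ ℕ).1 fun i => FreeAlt.gen (x6 i)⟩, ?_⟩
  · intro h
    exact hu (((h1 ℤ ℕ).2 x6).1 h)
  · exact (h3 ℤ ℕ ⟨x6⟩ hu (mem_nonZeroDivisors_of_ne_zero (by norm_num))).2

end Pool.Agent.Results.MP_2692c1_al.ThreeTorsion
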